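import Pool.Agent.K3h53.UG.Stm2
import Pool.Agent.K3h67.EX.Solve
import Pool.Agent.K3h18.EX.ExpB

/-! UG project (helper53), brick SOL2: solution of `Φ_j - L_j ∈ 2 π i ℤ` in a ball of radius
`√R / R^δ`. -/

set_option autoImplicit false

namespace Pool.Agent.K3h67.UG

open MvPolynomial Filter Topology Metric Set Pool.Agent.K3h22.EX Pool.Agent.K3h53.UG
open Pool.Agent.K3h67.EX (dlin dlin_apply hasStrict diffable)

theorem tend_log_sqrt : Tendsto (fun R : ℝ => (1 + Real.log R) / √R) atTop (𝓝 0) := by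
  have h1 : Tendsto (fun R : ℝ => 1 / √R) atTop (𝓝 0) :=
    tendsto_const_nhds.div_atTop Real.tendsto_sqrt_atTop
  have h2 : Tendsto (fun R : ℝ => Real.log R / √R) atTop (𝓝 0) := by
    have h := (isLittleO_log_rpow_atTop (r := 1 / 2) (by norm_num)).tendsto_div_nhds_zero
    refine h.congr fun R => ?_
    rw [Real.sqrt_eq_rpow]
  have h3 := h1.add h2
  rw [add_zero] at h3
  refine h3.congr fun R => ?_
  rw [add_div]

theorem sol2_of_expb : S_EXPB → S_BC → S_SOL2 := by
  intro hEXPB hBC s Φ ζ δ hδ hdeg _ hdet C₀ C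
  classical
  set ρ₀ : ℝ := |C₀| + |C| + 1 with hρ₀
  choose Cj hCj0 hCj using fun j => hEXPB s (Φ j) ζ ρ₀ (by have := hdeg j; omega)
  set C1 : ℝ := ∑ j, Cj j with hC1def
  have hC1 : ∀ j, Cj j ≤ C1 := fun j =>
    Finset.single_le_sum (f := Cj) (fun j _ => hCj0 j) (Finset.mem_univ j)
  have hC1nn : 0 ≤ C1 := Finset.sum_nonneg fun j _ => hCj0 j
  set M := jac (fun j => top (Φ j)) ζ with hM
  set A : (Fin s → ℂ) →L[ℂ] (Fin s → ℂ) :=
    ContinuousLinearMap.pi fun a => dlin (top (Φ a)) ζ with hAdef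
  have hA : ∀ v, A v = M.mulVec v := by
    intro v
    funext a
    change dlin (top (Φ a)) ζ v = _
    rw [dlin_apply]
    simp [hM, jac, Matrix.mulVec, dotProduct]
  set B : (Fin s → ℂ) →L[ℂ] (Fin s → ℂ) := (Matrix.toLin' M⁻¹).toContinuousLinearMap with hBdef
  have hB : ∀ v, B v = M⁻¹.mulVec v := by
    intro v; simp [hBdef]
  have hAB : ∀ v, A (B v) = v := by
    intro v
    rw [hA, hB, Matrix.mulVec_mulVec, Matrix.mul_nonsing_inv _ (Ne.isUnit hdet), Matrix.one_mulVec]
  set N : NNReal := ‖B‖₊ + 1 with hN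
  have hNpos : 0 < N := by positivity
  let rinv : A.NonlinearRightInverse :=
    { toFun := B
      nnnorm := N
      bound' := by
        intro y
        refine (B.le_opNorm y).trans ?_
        have : ‖B‖ ≤ (N : ℝ) := by rw [hN]; push_cast; linarith
        exact mul_le_mul_of_nonneg_right this (norm_nonneg _)
      right_inv' := hAB }
  set Kn : NNReal := (8 * N)⁻¹ with hKn
  have hKnpos : 0 < Kn := by positivity
  set K : ℝ := (Kn : ℝ) with hK
  have hKpos : 0 < K := by exact_mod_cast hKnpos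
  have hKN : (N : ℝ)⁻¹ = 8 * K := by
    rw [hK, hKn]; push_cast
    have : (0:ℝ) < N := by exact_mod_cast hNpos
    field_simp
  -- the conditions on `R`
  obtain ⟨R₁, hR₁⟩ : ∃ R₁ : ℝ, ∀ R, R₁ ≤ R → 1 ≤ R ∧
      C1 / R + 100 * ((|C| + 1) * (1 + Real.log R)) / √R ≤ 3 * K ∧
      (C1 * |C| + |C| * (1 + Real.log R) + Real.pi) / √R ≤ K / 2 := by
    have h1 : Tendsto (fun R : ℝ => C1 / R + (100 * (|C| + 1)) * ((1 + Real.log R) / √R)) atTop
        (𝓝 (0 + (100 * (|C| + 1)) * 0)) :=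
      (tendsto_const_nhds.div_atTop tendsto_id).add (tend_log_sqrt.const_mul _)
    have h2 : Tendsto (fun R : ℝ => (C1 * |C| + Real.pi) / √R + |C| * ((1 + Real.log R) / √R)) atTop
        (𝓝 (0 + |C| * 0)) :=
      (tendsto_const_nhds.div_atTop Real.tendsto_sqrt_atTop).add (tend_log_sqrt.const_mul _)
    rw [mul_zero, add_zero] at h1 h2
    have h3 := h1.eventually (gt_mem_nhds (show (0 : ℝ) < 3 * K by positivity))
    have h4 := h2.eventually (gt_mem_nhds (show (0 : ℝ) < K / 2 by positivity))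
    obtain ⟨R₁, h⟩ := eventually_atTop.1 (h3.and (h4.and (eventually_ge_atTop 1)))
    refine ⟨R₁, fun R hR => ?_⟩
    obtain ⟨h5, h6, h7⟩ := h R hR
    refine ⟨h7, ?_, ?_⟩
    · calc _ = C1 / R + (100 * (|C| + 1)) * ((1 + Real.log R) / √R) := by ring
        _ ≤ _ := h5.le
    · calc _ = (C1 * |C| + Real.pi) / √R + |C| * ((1 + Real.log R) / √R) := by ring
        _ ≤ _ := h6.le
  refine ⟨max 1 R₁, le_max_left _ _, ?_⟩
  intro R hR z₀ v hz₀ hv hvn L hL hLre
  obtain ⟨hR1, q1, q2⟩ := hR₁ R ((le_max_right _ _).trans hR)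
  have hR0 : 0 < R := by linarith
  have hlog : 0 ≤ Real.log R := Real.log_nonneg hR1
  have hsq : 0 < √R := Real.sqrt_pos.2 hR0
  have hRδ : 0 < R ^ δ := by positivity
  have hRRδ : R ≤ R ^ δ := by
    calc R = R ^ 1 := (pow_one R).symm
      _ ≤ _ := pow_le_pow_right₀ hR1 hδ
  set r : ℝ := √R / R ^ δ with hr
  have hr0 : 0 < r := div_pos hsq hRδ
  have hr1 : r ≤ 1 := by
    rw [hr, div_le_one hRδ]
    refine le_trans ?_ hRRδ
    rw [Real.sqrt_le_left hR0.le]
    nlinarith
  set a : Fin s → ℂ := z₀ + v with ha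
  have hvC : ‖v‖ ≤ |C| / R ^ δ * R := by
    refine hvn.trans ?_
    have : C * R / R ^ δ = C / R ^ δ * R := by ring
    rw [this]
    gcongr
    exact le_abs_self C
  have hvC' : ‖v‖ ≤ |C| := by
    refine hvC.trans ?_
    rw [div_mul_eq_mul_div, div_le_iff₀ hRδ]
    gcongr
  -- the powers
  have hrpos : ∀ j, 0 < R ^ ((Φ j).totalDegree - 1) := fun j => by positivity
  have hrR : ∀ j, R ^ δ ≤ R ^ ((Φ j).totalDegree - 1) := fun j =>
    pow_le_pow_right₀ hR1 (by have := hdeg j; omega)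
  have hrD : ∀ j, R ^ (Φ j).totalDegree / R ^ 2 = R ^ ((Φ j).totalDegree - 1) / R := by
    intro j
    have h1 : (Φ j).totalDegree = ((Φ j).totalDegree - 1) + 1 := by have := hdeg j; omega
    rw [h1, pow_succ, Nat.add_sub_cancel]
    field_simp
  have hrn : ∀ j, ‖((R : ℂ) ^ ((Φ j).totalDegree - 1))⁻¹‖ = (R ^ ((Φ j).totalDegree - 1))⁻¹ := by
    intro j
    rw [norm_inv, norm_pow, Complex.norm_real, Real.norm_of_nonneg hR0.le]
  have hRc : ∀ j, ((R : ℂ) ^ ((Φ j).totalDegree - 1)) ≠ 0 :=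
    fun j => pow_ne_zero _ (by exact_mod_cast hR0.ne')
  have hMd : ∀ j (v w : Fin s → ℂ), ∑ i, eval ζ (pderiv i (top (Φ j))) * (v i - w i) =
      A (v - w) j := by
    intro j v w
    change _ = dlin (top (Φ j)) ζ (v - w)
    rw [dlin_apply]
    rfl
  -- the expansion in terms of the point
  have hexp : ∀ j, ∀ z z' : Fin s → ℂ, ‖z - sc R ζ‖ ≤ ρ₀ → ‖z' - sc R ζ‖ ≤ ρ₀ →
      ‖eval z (Φ j) - eval z' (Φ j) - (R : ℂ) ^ ((Φ j).totalDegree - 1) * A (z - z') j‖ ≤
        C1 * (R ^ ((Φ j).totalDegree - 1) / R) * ‖z - z'‖ := by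
    intro j z z' hz hz'
    have h1 := (hCj j R hR1).2 (z - sc R ζ) (z' - sc R ζ) hz hz'
    rw [hMd, mul_div_assoc, hrD, sub_sub_sub_cancel_right, add_sub_cancel, add_sub_cancel] at h1
    refine h1.trans ?_
    gcongr
    exact hC1 j
  have hball : ∀ z ∈ ball a r, ‖z - sc R ζ‖ ≤ ρ₀ := by
    intro z hz
    rw [mem_ball, dist_eq_norm] at hz
    have e : z - sc R ζ = (z - a) + (v + (z₀ - sc R ζ)) := by rw [ha]; abel
    rw [e]
    refine (norm_add_le _ _).trans ?_
    have h2 := norm_add_le v (z₀ - sc R ζ)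
    have h3 := le_abs_self C₀
    rw [hρ₀]
    linarith
  have hz₀' : ‖z₀ - sc R ζ‖ ≤ ρ₀ := by
    have h3 := le_abs_self C₀
    have h4 := abs_nonneg C
    rw [hρ₀]
    linarith
  have haball : a ∈ ball a r := mem_ball_self hr0
  -- Lipschitz property of `L`
  have hLlip : ∀ j, ∀ z ∈ ball a (r / 4), ∀ z' ∈ ball a (r / 4),
      ‖L j z - L j z'‖ ≤ 100 * ((|C| + 1) * (1 + Real.log R)) / r * ‖z - z'‖ := by
    intro j z hz z' hz'
    have h := hBC s a r ((|C| + 1) * (1 + Real.log R))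
      (fun z => L j z - (((eval z₀ (Φ j)).re : ℝ) : ℂ)) hr0 (by positivity)
      ((hL j).sub (differentiableOn_const _)) (by
        intro z hz
        have h1 := hLre j z hz
        simp only [Complex.sub_re, Complex.ofReal_re]
        refine h1.trans ?_
        have h2 := le_abs_self C
        gcongr
        linarith) z hz z' hz'
    simpa using h
  set G : (Fin s → ℂ) → (Fin s → ℂ) := fun z j =>
    ((R : ℂ) ^ ((Φ j).totalDegree - 1))⁻¹ * (eval z (Φ j) - L j z) with hG
  set ρ : ℝ := r / 8 with hρdef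
  have hρ : 0 < ρ := by positivity
  have hsub : closedBall a ρ ⊆ ball a (r / 4) := by
    apply closedBall_subset_ball
    rw [hρdef]; linarith
  have hsub' : ball a (r / 4) ⊆ ball a r := ball_subset_ball (by linarith)
  have hGapp : ApproximatesLinearOn G A (closedBall a ρ) (3 * Kn) := by
    intro z hz z' hz'
    have hv' := hsub hz
    have hw' := hsub hz'
    push_cast
    rw [pi_norm_le_iff_of_nonneg (by positivity)]
    intro j
    have h1 := hexp j z z' (hball z (hsub' hv')) (hball z' (hsub' hw'))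
    have h2 := hLlip j z hv' z' hw'
    have e : (G z - G z' - A (z - z')) j = ((R : ℂ) ^ ((Φ j).totalDegree - 1))⁻¹ *
        (eval z (Φ j) - eval z' (Φ j) -
          (R : ℂ) ^ ((Φ j).totalDegree - 1) * A (z - z') j) -
        ((R : ℂ) ^ ((Φ j).totalDegree - 1))⁻¹ * (L j z - L j z') := by
      have := hRc j
      simp only [hG, Pi.sub_apply]
      field_simp
      ring
    rw [e]
    refine (norm_sub_le _ _).trans ?_
    rw [norm_mul, norm_mul, hrn]
    have hrj := hrpos j
    have h3 : (R ^ ((Φ j).totalDegree - 1))⁻¹ * ‖eval z (Φ j) - eval z' (Φ j) -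
          (R : ℂ) ^ ((Φ j).totalDegree - 1) * A (z - z') j‖ ≤ C1 / R * ‖z - z'‖ := by
      calc _ ≤ (R ^ ((Φ j).totalDegree - 1))⁻¹ *
            (C1 * (R ^ ((Φ j).totalDegree - 1) / R) * ‖z - z'‖) := by gcongr
        _ = C1 / R * ‖z - z'‖ := by field_simp
    have h4 : (R ^ ((Φ j).totalDegree - 1))⁻¹ * ‖L j z - L j z'‖ ≤
        100 * ((|C| + 1) * (1 + Real.log R)) / √R * ‖z - z'‖ := by
      calc _ ≤ (R ^ δ)⁻¹ * (100 * ((|C| + 1) * (1 + Real.log R)) / r * ‖z - z'‖) := by
            gcongr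
            have := hdeg j
            omega
        _ = _ := by
            rw [hr]
            field_simp
    have h6 : (C1 / R + 100 * ((|C| + 1) * (1 + Real.log R)) / √R) * ‖z - z'‖ ≤
        3 * K * ‖z - z'‖ := by
      gcongr
    rw [add_mul] at h6
    linarith
  have hsurj := hGapp.surjOn_closedBall_of_nonlinearRightInverse rinv hρ.le (subset_refl _)
  have hrad : 4 * K * ρ ≤ (((rinv.nnnorm : ℝ))⁻¹ - ((3 * Kn : NNReal) : ℝ)) * ρ := by
    have : (rinv.nnnorm : ℝ) = (N : ℝ) := rfl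
    rw [this, hKN]
    push_cast
    nlinarith
  choose n hn using fun j => (⟨round ((eval a (Φ j) - L j a).im /
    (2 * Real.pi)), abs_sub_round _⟩ : ∃ n : ℤ, |(eval a (Φ j) - L j a).im /
      (2 * Real.pi) - n| ≤ 1 / 2)
  set τ : Fin s → ℂ := fun j => 2 * Real.pi * Complex.I * (n j : ℂ) /
    (R : ℂ) ^ ((Φ j).totalDegree - 1) with hτ
  -- the real part
  have hRe : ∀ j, |(eval a (Φ j) - L j a).re| ≤
      C1 * |C| / R ^ δ * R ^ ((Φ j).totalDegree - 1) + |C| * (1 + Real.log R) := by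
    intro j
    have hrj := hrpos j
    have h1 := (Complex.abs_re_le_norm _).trans (hexp j a z₀ (hball a haball) hz₀')
    have hav : a - z₀ = v := by rw [ha]; abel
    rw [hav] at h1
    have hrr : ((R : ℂ) ^ ((Φ j).totalDegree - 1) * A v j).re = 0 := by
      rw [← Complex.ofReal_pow, Complex.re_ofReal_mul, hA, hv j, mul_zero]
    rw [Complex.sub_re, Complex.sub_re, hrr, sub_zero] at h1
    have h2 := hLre j a haball
    have h3 : C1 * (R ^ ((Φ j).totalDegree - 1) / R) * ‖v‖ ≤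
        C1 * |C| / R ^ δ * R ^ ((Φ j).totalDegree - 1) := by
      calc _ ≤ C1 * (R ^ ((Φ j).totalDegree - 1) / R) * (|C| / R ^ δ * R) := by gcongr
        _ = _ := by field_simp
    have h4 : C * (1 + Real.log R) ≤ |C| * (1 + Real.log R) := by
      gcongr
      exact le_abs_self C
    rw [Complex.sub_re]
    have e : (eval a (Φ j)).re - (L j a).re = ((eval a (Φ j)).re - (eval z₀ (Φ j)).re) -
      ((L j a).re - (eval z₀ (Φ j)).re) := by ring
    rw [e]
    refine (abs_sub _ _).trans ?_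
    linarith
  have hτmem : τ ∈ closedBall (G a) ((((rinv.nnnorm : ℝ))⁻¹ - ((3 * Kn : NNReal) : ℝ)) * ρ) := by
    rw [mem_closedBall, dist_eq_norm]
    refine le_trans ?_ hrad
    rw [pi_norm_le_iff_of_nonneg (by positivity)]
    intro j
    have e : (τ - G a) j = ((R : ℂ) ^ ((Φ j).totalDegree - 1))⁻¹ *
        (2 * Real.pi * Complex.I * (n j : ℂ) - (eval a (Φ j) - L j a)) := by
      have := hRc j
      simp only [hG, hτ, Pi.sub_apply]
      field_simp
    rw [e, norm_mul, hrn]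
    set X : ℂ := eval a (Φ j) - L j a with hX
    have hr' : (2 * Real.pi * Complex.I * (n j : ℂ) - X).re = -X.re := by
      simp only [Complex.sub_re]
      simp
    have hi : (2 * Real.pi * Complex.I * (n j : ℂ) - X).im = 2 * Real.pi * n j - X.im := by
      simp only [Complex.sub_im]
      simp
    have hi' : |2 * Real.pi * n j - X.im| ≤ Real.pi := by
      have h5 := hn j
      have hpi := Real.pi_pos
      have h6 : 2 * Real.pi * n j - X.im = - (2 * Real.pi) * (X.im / (2 * Real.pi) - n j) := by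
        field_simp
        ring
      rw [h6, abs_mul, abs_neg, abs_of_pos (by positivity : 0 < 2 * Real.pi)]
      nlinarith
    have hnorm : ‖(2 * Real.pi * Complex.I * (n j : ℂ) - X)‖ ≤
        C1 * |C| / R ^ δ * R ^ ((Φ j).totalDegree - 1) + |C| * (1 + Real.log R) + Real.pi := by
      refine (Complex.norm_le_abs_re_add_abs_im _).trans ?_
      rw [hr', hi, abs_neg]
      exact add_le_add (hRe j) hi'
    have hrj := hrpos j
    have hpi := Real.pi_pos
    calc _ ≤ (R ^ ((Φ j).totalDegree - 1))⁻¹ *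
          (C1 * |C| / R ^ δ * R ^ ((Φ j).totalDegree - 1) + |C| * (1 + Real.log R) + Real.pi) := by
          gcongr
      _ = C1 * |C| / R ^ δ + (|C| * (1 + Real.log R) + Real.pi) / R ^ ((Φ j).totalDegree - 1) := by
          field_simp
          ring
      _ ≤ C1 * |C| / R ^ δ + (|C| * (1 + Real.log R) + Real.pi) / R ^ δ := by
          gcongr
          have := hdeg j
          omega
      _ = (C1 * |C| + |C| * (1 + Real.log R) + Real.pi) / √R * r := by
          rw [hr]
          field_simp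
          ring
      _ ≤ K / 2 * r := by gcongr
      _ = 4 * K * ρ := by rw [hρdef]; ring
  obtain ⟨z, hz, hGz⟩ := hsurj hτmem
  have hz4 := hsub hz
  refine ⟨z, hsub' hz4, fun j => ⟨n j, ?_⟩⟩
  have h7 := congrFun hGz j
  simp only [hG, hτ] at h7
  have := hRc j
  field_simp at h7
  linear_combination h7

theorem t_SOL2 : S_BC → S_SOL2 := sol2_of_expb Pool.Agent.K3h18.EX.t_EXPB

end Pool.Agent.K3h67.UG
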