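import Pool.Agent.K3h53.UG.Stm3
import Pool.Agent.K3h67.EX.Solve
import Pool.Agent.K3h18.EX.ExpB

/-! UG project (helper53), brick SOL3: solution of `z_j - L_j(z) ∈ 2 π i ℤ` (`j ≠ k`),
`q(z) - L_k(z) ∈ 2 π i ℤ` near `R ζ`. -/

set_option autoImplicit false

namespace Pool.Agent.K3h67.UG3

open MvPolynomial Filter Topology Metric Set Pool.Agent.K3h22.EX Pool.Agent.K3h53.UG
open Pool.Agent.K3h67.EX (dlin dlin_apply hasStrict diffable)

/-- first order expansion of a homogeneous polynomial near `R ζ` -/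
lemma comp3 {s : ℕ} (φ : MvPolynomial (Fin s) ℂ) (k : ℕ) (hφ : φ.IsHomogeneous (k + 1))
    (ζ : Fin s → ℂ) :
    ∃ L : ℝ, 0 ≤ L ∧ ∀ R : ℝ, 1 ≤ R → ∀ r : ℝ, 0 ≤ r → r ≤ 1 → ∀ z z' : Fin s → ℂ,
      ‖z - sc R ζ‖ ≤ r * R → ‖z' - sc R ζ‖ ≤ r * R →
      ‖eval z φ - eval z' φ - (R : ℂ) ^ k * dlin φ ζ (z - z')‖ ≤ L * r * R ^ k * ‖z - z'‖ := by
  obtain ⟨L, hL, H⟩ := Pool.Agent.K3h18.EX.local2 φ ζ 1 zero_le_one
  refine ⟨L, hL, fun R hR r hr hr1 z z' hz hz' => ?_⟩
  have hR0 : 0 < R := by linarith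
  have hRc : (R : ℂ) ≠ 0 := by exact_mod_cast hR0.ne'
  have key : ∀ x : Fin s → ℂ, eval x φ =
      (R : ℂ) ^ (k + 1) * eval (ζ + (R : ℂ)⁻¹ • (x - sc R ζ)) φ := by
    intro x
    rw [← Pool.Agent.K3h74.EX.eval_sc_of_homogeneous hφ]
    have : x = sc R (ζ + (R : ℂ)⁻¹ • (x - sc R ζ)) := by
      funext i
      simp only [sc, Pi.add_apply, Pi.smul_apply, Pi.sub_apply, smul_eq_mul]
      field_simp
      ring
    conv_lhs => rw [this]
  have nrm : ∀ x : Fin s → ℂ, ‖(R : ℂ)⁻¹ • x‖ = ‖x‖ / R := by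
    intro x
    rw [norm_smul, norm_inv, Complex.norm_real, Real.norm_of_nonneg hR0.le]
    field_simp
  have h1 := H r hr hr1 ((R : ℂ)⁻¹ • (z - sc R ζ)) ((R : ℂ)⁻¹ • (z' - sc R ζ))
    (by rw [nrm, div_le_iff₀ hR0]; exact hz) (by rw [nrm, div_le_iff₀ hR0]; exact hz')
  have e0 : (R : ℂ)⁻¹ • (z - sc R ζ) - (R : ℂ)⁻¹ • (z' - sc R ζ) = (R : ℂ)⁻¹ • (z - z') := by
    rw [← smul_sub]
    congr 1
    abel
  rw [e0, nrm] at h1
  have e : eval z φ - eval z' φ - (R : ℂ) ^ k * dlin φ ζ (z - z') =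
      (R : ℂ) ^ (k + 1) * (eval (ζ + (R : ℂ)⁻¹ • (z - sc R ζ)) φ -
        eval (ζ + (R : ℂ)⁻¹ • (z' - sc R ζ)) φ -
        ∑ j, eval ζ (pderiv j φ) *
          (((R : ℂ)⁻¹ • (z - sc R ζ)) j - ((R : ℂ)⁻¹ • (z' - sc R ζ)) j)) := by
    rw [key z, key z', mul_sub, mul_sub]
    congr 1
    rw [dlin_apply, pow_succ, mul_assoc, Finset.mul_sum _ _ (R : ℂ)]
    congr 1
    refine Finset.sum_congr rfl fun j _ => ?_
    simp only [Pi.smul_apply, Pi.sub_apply, smul_eq_mul]
    field_simp
    ring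
  rw [e, norm_mul, norm_pow, Complex.norm_real, Real.norm_of_nonneg hR0.le]
  calc R ^ (k + 1) * _ ≤ R ^ (k + 1) * (L * r * (‖z - z'‖ / R)) := by gcongr
    _ = _ := by
      rw [pow_succ]
      field_simp

/-- first order expansion of a polynomial near `R ζ` -/
lemma expc {s : ℕ} (q : MvPolynomial (Fin s) ℂ) (ζ : Fin s → ℂ) (hd : 1 ≤ q.totalDegree) :
    ∃ C : ℝ, 0 ≤ C ∧ ∀ R : ℝ, 1 ≤ R → ∀ r : ℝ, 0 ≤ r → r ≤ 1 → ∀ z z' : Fin s → ℂ,
      ‖z - sc R ζ‖ ≤ r * R → ‖z' - sc R ζ‖ ≤ r * R →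
      ‖eval z q - eval z' q - (R : ℂ) ^ (q.totalDegree - 1) * dlin (top q) ζ (z - z')‖ ≤
        C * (r + 1 / R) * R ^ (q.totalDegree - 1) * ‖z - z'‖ := by
  obtain ⟨e, he⟩ : ∃ e, q.totalDegree = e + 1 := ⟨q.totalDegree - 1, by omega⟩
  choose L hL0 hL using fun k : ℕ => comp3 (homogeneousComponent (k + 1) q) k
    (homogeneousComponent_isHomogeneous (k + 1) q) ζ
  let D : ℕ → ℝ := fun k => ‖dlin (homogeneousComponent (k + 1) q) ζ‖
  have hD0 : ∀ k, 0 ≤ D k := fun k => norm_nonneg _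
  have htop : top q = homogeneousComponent (e + 1) q := by
    unfold top
    rw [he]
  have dec : ∀ x : Fin s → ℂ, eval x q = ∑ k ∈ Finset.range e,
      eval x (homogeneousComponent (k + 1) q) + coeff 0 q + eval x (top q) := by
    intro x
    conv_lhs => rw [← sum_homogeneousComponent q]
    rw [map_sum, he, Finset.sum_range_succ, Finset.sum_range_succ', htop,
      homogeneousComponent_zero, eval_C]
  set S : ℝ := ∑ k ∈ Finset.range e, (L k + D k) with hS
  have hS0 : 0 ≤ S := Finset.sum_nonneg fun k _ => add_nonneg (hL0 k) (hD0 k)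
  refine ⟨S + L e, add_nonneg hS0 (hL0 e), fun R hR r hr hr1 z z' hz hz' => ?_⟩
  have hR0 : 0 < R := by linarith
  rw [he, Nat.add_sub_cancel]
  have hsplit : eval z q - eval z' q - (R : ℂ) ^ e * dlin (top q) ζ (z - z') =
      ∑ k ∈ Finset.range e, (eval z (homogeneousComponent (k + 1) q) -
        eval z' (homogeneousComponent (k + 1) q)) +
      (eval z (homogeneousComponent (e + 1) q) - eval z' (homogeneousComponent (e + 1) q) -
        (R : ℂ) ^ e * dlin (homogeneousComponent (e + 1) q) ζ (z - z')) := by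
    rw [dec z, dec z', Finset.sum_sub_distrib, htop]
    ring
  rw [hsplit]
  have h1 : ∀ k ∈ Finset.range e, ‖eval z (homogeneousComponent (k + 1) q) -
        eval z' (homogeneousComponent (k + 1) q)‖ ≤ (L k + D k) * (1 / R * R ^ e * ‖z - z'‖) := by
    intro k hk
    have hk' : k + 1 ≤ e := Finset.mem_range.1 hk
    have h2 := hL k R hR r hr hr1 z z' hz hz'
    have h3 : ‖(R : ℂ) ^ k * dlin (homogeneousComponent (k + 1) q) ζ (z - z')‖ ≤
        R ^ k * (D k * ‖z - z'‖) := by
      rw [norm_mul, norm_pow, Complex.norm_real, Real.norm_of_nonneg hR0.le]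
      gcongr
      exact ContinuousLinearMap.le_opNorm _ _
    have h4 : L k * r * R ^ k * ‖z - z'‖ ≤ L k * 1 * R ^ k * ‖z - z'‖ := by
      have := hL0 k
      gcongr
    have h5 : R ^ k ≤ 1 / R * R ^ e := by
      rw [one_div, inv_mul_eq_div, le_div_iff₀ hR0, ← pow_succ]
      exact pow_le_pow_right₀ hR hk'
    have h6 : ‖eval z (homogeneousComponent (k + 1) q) -
        eval z' (homogeneousComponent (k + 1) q)‖ ≤
        ‖eval z (homogeneousComponent (k + 1) q) -
        eval z' (homogeneousComponent (k + 1) q) -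
          (R : ℂ) ^ k * dlin (homogeneousComponent (k + 1) q) ζ (z - z')‖ +
        ‖(R : ℂ) ^ k * dlin (homogeneousComponent (k + 1) q) ζ (z - z')‖ := by
      have := norm_add_le (eval z (homogeneousComponent (k + 1) q) -
        eval z' (homogeneousComponent (k + 1) q) -
          (R : ℂ) ^ k * dlin (homogeneousComponent (k + 1) q) ζ (z - z'))
        ((R : ℂ) ^ k * dlin (homogeneousComponent (k + 1) q) ζ (z - z'))
      rwa [sub_add_cancel] at this
    have h7 : (L k + D k) * (R ^ k * ‖z - z'‖) ≤ (L k + D k) * (1 / R * R ^ e * ‖z - z'‖) := by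
      have := hL0 k
      have := hD0 k
      gcongr
    linarith
  calc _ ≤ _ := norm_add_le _ _
    _ ≤ ∑ k ∈ Finset.range e, (L k + D k) * (1 / R * R ^ e * ‖z - z'‖) +
        L e * r * R ^ e * ‖z - z'‖ :=
      add_le_add ((norm_sum_le _ _).trans (Finset.sum_le_sum h1))
        (hL e R hR r hr hr1 z z' hz hz')
    _ = S * (1 / R) * R ^ e * ‖z - z'‖ + L e * r * R ^ e * ‖z - z'‖ := by
      rw [← Finset.sum_mul]
      ring
    _ ≤ (S + L e) * (r + 1 / R) * R ^ e * ‖z - z'‖ := by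
      have h2 : 0 ≤ S * r * (R ^ e * ‖z - z'‖) := by positivity
      have h3 : 0 ≤ L e * (1 / R) * (R ^ e * ‖z - z'‖) := by
        have := hL0 e
        positivity
      nlinarith

theorem t_SOL3 : S_BC → S_SOL3 := by
  intro hBC s k q ζ b a hdeg hζk hζj hre hA0 ε C hε
  classical
  set u : Fin s → ℂ := fun j => (((ζ j).re : ℝ) : ℂ) with hu
  set A : ℂ := dlin (top q) ζ u with hAdef
  have hAne : A ≠ 0 := by
    intro h
    apply hA0
    rw [← h, hAdef, dlin_apply]
    simp [dd, mul_comm]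
  have huk : u k = 1 := by simp [hu, hζk]
  have huj : ∀ j, j ≠ k → u j = (b j : ℂ) := fun j hj => by simp [hu, hζj j hj]
  obtain ⟨C1, hC1, hexp⟩ := expc q ζ (by omega)
  obtain ⟨C2, hC2, htop⟩ := Pool.Agent.K3h74.EX.t_TOP s q ‖ζ‖
  set x0 : Fin s → ℂ := fun j => if j = k then 0 else (a j : ℂ) with hx0
  set ω : ℂ := - dlin (top q) ζ x0 / A with hω
  set ws : Fin s → ℂ := x0 + ω • u with hws
  have hdws : dlin (top q) ζ ws = 0 := by
    rw [hws, map_add, map_smul, ← hAdef, smul_eq_mul, hω]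
    field_simp
    ring
  have hwsk : ws k = ω := by simp [hws, hx0, huk]
  have hwsj : ∀ j, j ≠ k → ws j = (a j : ℂ) + ω * b j := by
    intro j hj
    simp [hws, hx0, hj, huj j hj]
  set T : (Fin s → ℂ) →L[ℂ] (Fin s → ℂ) := ContinuousLinearMap.pi fun j =>
    if j = k then dlin (top q) ζ else
      ((ContinuousLinearMap.proj j : (Fin s → ℂ) →L[ℂ] ℂ) -
        (b j : ℂ) • (ContinuousLinearMap.proj k : (Fin s → ℂ) →L[ℂ] ℂ)) with hT
  have hTk : ∀ v, T v k = dlin (top q) ζ v := by intro v; simp [hT]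
  have hTj : ∀ v j, j ≠ k → T v j = v j - b j * v k := by intro v j hj; simp [hT, hj]
  have hTsurj : Function.Surjective T := by
    intro y
    set y' : Fin s → ℂ := fun j => if j = k then 0 else y j with hy'
    refine ⟨((y k - dlin (top q) ζ y') / A) • u + y', ?_⟩
    funext j
    by_cases hj : j = k
    · rw [hj, hTk, map_add, map_smul, ← hAdef, smul_eq_mul]
      field_simp
      ring
    · rw [hTj _ _ hj]
      simp only [Pi.add_apply, Pi.smul_apply, smul_eq_mul, huk, huj j hj, hy', if_neg hj, if_true]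
      ring
  let rinv : T.NonlinearRightInverse := T.nonlinearRightInverseOfSurjective
    (LinearMap.range_eq_top.2 hTsurj)
  set N : NNReal := rinv.nnnorm with hN
  have hNpos : 0 < N := T.nonlinearRightInverseOfSurjective_nnnorm_pos
    (LinearMap.range_eq_top.2 hTsurj)
  set Kn : NNReal := (8 * N)⁻¹ with hKn
  have hKnpos : 0 < Kn := by positivity
  set K : ℝ := (Kn : ℝ) with hK
  have hKpos : 0 < K := by exact_mod_cast hKnpos
  have hKN : (N : ℝ)⁻¹ = 8 * K := by
    rw [hK, hKn]; push_cast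
    have : (0:ℝ) < N := by exact_mod_cast hNpos
    field_simp
  set C3 : ℝ := C1 + C2 + |C| + |b k| * (1 + ‖ω‖) + |a k| with hC3
  have hC3nn : 0 ≤ C3 := by positivity
  have hCC3 : |C| ≤ C3 := by
    have h1 : 0 ≤ |b k| * (1 + ‖ω‖) := by positivity
    have h2 : 0 ≤ |a k| := abs_nonneg _
    rw [hC3]; linarith
  set ρ : ℝ := (C3 + Real.pi) / (4 * K) with hρdef
  have hρ : 0 < ρ := by have := Real.pi_pos; positivity
  have hρK : 4 * K * ρ = C3 + Real.pi := by rw [hρdef]; field_simp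
  set W : ℝ := ‖ws‖ with hW
  have hW0 : 0 ≤ W := norm_nonneg _
  -- the conditions on `R`
  obtain ⟨R₁, hR₁⟩ : ∃ R₁ : ℝ, ∀ R, R₁ ≤ R → 1 ≤ R ∧
      (W * Real.log R + ρ) / R < ε / 4 ∧ (W * Real.log R + ρ) / R ≤ 1 ∧
      (W * Real.log R + 1) * (W * Real.log R) / R ≤ 1 ∧
      C1 * ((W * Real.log R + ρ) / R + 1 / R) + |b k| / R + 100 * (|C| + 1) / ε / R ≤ 3 * K := by
    have hl : Tendsto (fun R : ℝ => Real.log R / R) atTop (𝓝 0) :=
      Real.isLittleO_log_id_atTop.tendsto_div_nhds_zero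
    have hl2 : Tendsto (fun R : ℝ => Real.log R ^ 2 / R) atTop (𝓝 0) :=
      Real.isLittleO_pow_log_id_atTop.tendsto_div_nhds_zero
    have hc : ∀ c : ℝ, Tendsto (fun R : ℝ => c / R) atTop (𝓝 0) := fun c =>
      tendsto_const_nhds.div_atTop tendsto_id
    have h1 : Tendsto (fun R : ℝ => (W * Real.log R + ρ) / R) atTop (𝓝 0) := by
      have h := (hl.const_mul W).add (hc ρ)
      rw [mul_zero, add_zero] at h
      refine h.congr fun R => ?_
      ring
    have h2 : Tendsto (fun R : ℝ => (W * Real.log R + 1) * (W * Real.log R) / R) atTop (𝓝 0) := by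
      have h := (hl2.const_mul (W ^ 2)).add (hl.const_mul W)
      rw [mul_zero, mul_zero, add_zero] at h
      refine h.congr fun R => ?_
      ring
    have h3 : Tendsto (fun R : ℝ => C1 * ((W * Real.log R + ρ) / R + 1 / R) + |b k| / R +
        100 * (|C| + 1) / ε / R) atTop (𝓝 0) := by
      have h := (((h1.add (hc 1)).const_mul C1).add (hc |b k|)).add (hc (100 * (|C| + 1) / ε))
      simpa using h
    obtain ⟨R₁, h⟩ := eventually_atTop.1 ((eventually_ge_atTop (1 : ℝ)).and
      ((h1.eventually (gt_mem_nhds (show (0 : ℝ) < ε / 4 by positivity))).and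
      ((h1.eventually (gt_mem_nhds (show (0 : ℝ) < 1 by positivity))).and
      ((h2.eventually (gt_mem_nhds (show (0 : ℝ) < 1 by positivity))).and
      (h3.eventually (gt_mem_nhds (show (0 : ℝ) < 3 * K by positivity)))))))
    refine ⟨R₁, fun R hR => ?_⟩
    obtain ⟨g1, g2, g3, g4, g5⟩ := h R hR
    exact ⟨g1, g2, g3.le, g4.le, g5.le⟩
  refine ⟨max 1 R₁, le_max_left _ _, ?_⟩
  intro R hR L hL hLre
  obtain ⟨hR1, q1, q2, q3, q4⟩ := hR₁ R ((le_max_right _ _).trans hR)
  have hR0 : 0 < R := by linarith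
  have hRne : (R : ℂ) ≠ 0 := by exact_mod_cast hR0.ne'
  have hlog : 0 ≤ Real.log R := Real.log_nonneg hR1
  have hlogR : Real.log R ≤ R := (Real.log_le_sub_one_of_pos hR0).trans (by linarith)
  set P : ℝ := R ^ (q.totalDegree - 1) with hP
  have hP0 : 0 < P := by positivity
  have hRP : R ≤ P := by
    calc R = R ^ 1 := (pow_one R).symm
      _ ≤ _ := pow_le_pow_right₀ hR1 (by omega)
  have hP1 : 1 ≤ P := hR1.trans hRP
  have hRP' : R ^ q.totalDegree / R = P := by
    have h1 : q.totalDegree = (q.totalDegree - 1) + 1 := by omega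
    rw [h1, pow_succ, hP]
    field_simp
  have hPc : (R : ℂ) ^ (q.totalDegree - 1) = (P : ℂ) := by rw [hP]; push_cast; rfl
  have hPne : (P : ℂ) ≠ 0 := by exact_mod_cast hP0.ne'
  rw [div_le_one hR0] at q2
  rw [div_lt_iff₀ hR0] at q1
  set z1 : Fin s → ℂ := sc R ζ + (Real.log R : ℂ) • ws with hz1
  have hz1n : ‖z1 - sc R ζ‖ = W * Real.log R := by
    rw [hz1, add_sub_cancel_left, norm_smul, Complex.norm_real, Real.norm_of_nonneg hlog, mul_comm]
  have hεR : 0 < ε * R := by positivity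
  have hsub : closedBall z1 ρ ⊆ ball (sc R ζ) (ε * R / 4) := by
    intro z hz
    rw [mem_closedBall, dist_eq_norm] at hz
    rw [mem_ball, dist_eq_norm]
    have e : z - sc R ζ = (z - z1) + (z1 - sc R ζ) := by abel
    rw [e]
    refine (norm_add_le _ _).trans_lt ?_
    rw [hz1n]
    linarith
  have hsub' : ball (sc R ζ) (ε * R / 4) ⊆ ball (sc R ζ) (ε * R) :=
    ball_subset_ball (by linarith)
  have hz1mem : z1 ∈ closedBall z1 ρ := mem_closedBall_self hρ.le
  have hrad : ∀ z ∈ closedBall z1 ρ, ‖z - sc R ζ‖ ≤ (W * Real.log R + ρ) / R * R := by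
    intro z hz
    rw [mem_closedBall, dist_eq_norm] at hz
    have e : z - sc R ζ = (z - z1) + (z1 - sc R ζ) := by abel
    rw [e, div_mul_cancel₀ _ hR0.ne']
    refine (norm_add_le _ _).trans ?_
    rw [hz1n]
    linarith
  -- Lipschitz property
  set Mf : Fin s → (Fin s → ℂ) → ℂ := fun j z =>
    L j z - ((b j : ℂ) * z k + ((a j * Real.log R : ℝ) : ℂ)) with hMf
  have hMlip : ∀ j, ∀ z ∈ ball (sc R ζ) (ε * R / 4), ∀ z' ∈ ball (sc R ζ) (ε * R / 4),
      ‖Mf j z - Mf j z'‖ ≤ 100 * (|C| + 1) / (ε * R) * ‖z - z'‖ := by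
    intro j z hz z' hz'
    refine hBC s (sc R ζ) (ε * R) (|C| + 1) (Mf j) hεR (by positivity) ?_ ?_ z hz z' hz'
    · refine (hL j).sub ?_
      refine DifferentiableOn.add_const _ ?_
      refine DifferentiableOn.const_mul ?_ _
      exact (differentiable_apply k).differentiableOn
    · intro z hz
      have h1 := hLre j z hz
      have h2 : (Mf j z).re = (L j z).re - (b j * (z k).re + a j * Real.log R) := by
        simp only [hMf, Complex.sub_re, Complex.add_re, Complex.re_ofReal_mul, Complex.ofReal_re]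
      rw [h2]
      have h3 := le_abs_self C
      linarith
  set G : (Fin s → ℂ) → (Fin s → ℂ) := fun z j =>
    if j = k then (P : ℂ)⁻¹ * (eval z q - L k z) else z j - L j z with hG
  have hGk : ∀ z, G z k = (P : ℂ)⁻¹ * (eval z q - L k z) := by intro z; simp [hG]
  have hGj : ∀ z j, j ≠ k → G z j = z j - L j z := by intro z j hj; simp [hG, hj]
  have hPn : ‖(P : ℂ)⁻¹‖ = P⁻¹ := by
    rw [norm_inv, Complex.norm_real, Real.norm_of_nonneg hP0.le]
  have hB : 100 * (|C| + 1) / (ε * R) = 100 * (|C| + 1) / ε / R := by field_simp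
  have t1 : 0 ≤ C1 * ((W * Real.log R + ρ) / R + 1 / R) := by positivity
  have t2 : 0 ≤ |b k| / R := by positivity
  have t3 : 0 ≤ 100 * (|C| + 1) / ε / R := by positivity
  have hGapp : ApproximatesLinearOn G T (closedBall z1 ρ) (3 * Kn) := by
    intro z hz z' hz'
    have hv := hsub hz
    have hw := hsub hz'
    push_cast
    rw [pi_norm_le_iff_of_nonneg (by positivity)]
    intro j
    have h2 := hMlip j z hv z' hw
    rw [hB] at h2
    by_cases hj : j = k
    · subst hj
      have h1 := hexp R hR1 ((W * Real.log R + ρ) / R) (by positivity)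
        (by rw [div_le_one hR0]; exact q2) z z' (hrad z hz) (hrad z' hz')
      rw [hPc, ← hP] at h1
      have e : (G z - G z' - T (z - z')) j = (P : ℂ)⁻¹ *
          (eval z q - eval z' q - (P : ℂ) * dlin (top q) ζ (z - z')) -
          (P : ℂ)⁻¹ * ((b j : ℂ) * (z - z') j + (Mf j z - Mf j z')) := by
        simp only [Pi.sub_apply, hGk, hTk, hMf]
        field_simp
        ring
      rw [e]
      refine (norm_sub_le _ _).trans ?_
      rw [norm_mul, norm_mul, hPn]
      have h3 : P⁻¹ * ‖eval z q - eval z' q - (P : ℂ) * dlin (top q) ζ (z - z')‖ ≤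
          C1 * ((W * Real.log R + ρ) / R + 1 / R) * ‖z - z'‖ := by
        calc _ ≤ P⁻¹ * (C1 * ((W * Real.log R + ρ) / R + 1 / R) * P * ‖z - z'‖) := by gcongr
          _ = _ := by field_simp
      have h4 : P⁻¹ * ‖(b j : ℂ) * (z - z') j + (Mf j z - Mf j z')‖ ≤
          |b j| / R * ‖z - z'‖ + 100 * (|C| + 1) / ε / R * ‖z - z'‖ := by
        have h5 : ‖(b j : ℂ) * (z - z') j + (Mf j z - Mf j z')‖ ≤
            |b j| * ‖z - z'‖ + 100 * (|C| + 1) / ε / R * ‖z - z'‖ := by
          refine (norm_add_le _ _).trans (add_le_add ?_ h2)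
          rw [norm_mul, Complex.norm_real, Real.norm_eq_abs]
          gcongr
          exact norm_le_pi_norm (z - z') j
        have h6 : P⁻¹ ≤ 1 / R := by
          rw [one_div]
          gcongr
        have h7 : P⁻¹ ≤ 1 := inv_le_one_of_one_le₀ hP1
        calc P⁻¹ * ‖(b j : ℂ) * (z - z') j + (Mf j z - Mf j z')‖
            ≤ P⁻¹ * (|b j| * ‖z - z'‖ + 100 * (|C| + 1) / ε / R * ‖z - z'‖) := by gcongr
          _ = P⁻¹ * (|b j| * ‖z - z'‖) + P⁻¹ * (100 * (|C| + 1) / ε / R * ‖z - z'‖) := by ring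
          _ ≤ 1 / R * (|b j| * ‖z - z'‖) + 1 * (100 * (|C| + 1) / ε / R * ‖z - z'‖) := by
            gcongr
          _ = _ := by ring
      have h8 : (C1 * ((W * Real.log R + ρ) / R + 1 / R) + |b j| / R +
          100 * (|C| + 1) / ε / R) * ‖z - z'‖ ≤ 3 * K * ‖z - z'‖ := by gcongr
      rw [add_mul, add_mul] at h8
      linarith
    · have e : (G z - G z' - T (z - z')) j = - (Mf j z - Mf j z') := by
        simp only [Pi.sub_apply, hGj _ _ hj, hTj _ _ hj, hMf]
        ring
      rw [e, norm_neg]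
      refine h2.trans ?_
      gcongr
      linarith
  have hsurj := hGapp.surjOn_closedBall_of_nonlinearRightInverse rinv hρ.le (subset_refl _)
  have hrad' : 4 * K * ρ ≤ (((rinv.nnnorm : ℝ))⁻¹ - ((3 * Kn : NNReal) : ℝ)) * ρ := by
    rw [← hN, hKN]
    push_cast
    nlinarith
  -- the integers
  set Y : Fin s → ℂ := fun j => if j = k then eval z1 q - L k z1 else z1 j - L j z1 with hY
  choose n hn using fun j => (⟨round ((Y j).im / (2 * Real.pi)), abs_sub_round _⟩ :
    ∃ n : ℤ, |(Y j).im / (2 * Real.pi) - n| ≤ 1 / 2)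
  set τ : Fin s → ℂ := fun j => if j = k then (P : ℂ)⁻¹ * (2 * Real.pi * Complex.I * (n j : ℂ))
    else 2 * Real.pi * Complex.I * (n j : ℂ) with hτ
  have hz1k : (z1 k).re = R + Real.log R * ω.re := by
    have : z1 k = (R : ℂ) * ζ k + (Real.log R : ℂ) * ws k := by
      simp [hz1, sc]
    rw [this, Complex.add_re, Complex.re_ofReal_mul, Complex.re_ofReal_mul, hζk, hwsk, mul_one]
  have hz1ball : z1 ∈ ball (sc R ζ) (ε * R) := hsub' (hsub hz1mem)
  have hYj : ∀ j, j ≠ k → |(Y j).re| ≤ C3 := by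
    intro j hj
    have h1 := hLre j z1 hz1ball
    have h2 : (z1 j).re = b j * (z1 k).re + a j * Real.log R := by
      have : z1 j = (R : ℂ) * ζ j + (Real.log R : ℂ) * ws j := by
        simp [hz1, sc]
      rw [this, Complex.add_re, Complex.re_ofReal_mul, Complex.re_ofReal_mul, hζj j hj, hwsj j hj,
        hz1k, Complex.add_re, Complex.ofReal_re, mul_comm ω, Complex.re_ofReal_mul]
      ring
    have h3 : (Y j).re = -((L j z1).re - (b j * (z1 k).re + a j * Real.log R)) := by
      simp only [hY, if_neg hj, Complex.sub_re, h2]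
      ring
    rw [h3, abs_neg]
    exact (h1.trans (le_abs_self C)).trans hCC3
  have hYk : |(Y k).re| ≤ C3 * P := by
    have h1 := hLre k z1 hz1ball
    have h2 : |(L k z1).re| ≤ (|C| + |b k| * (1 + ‖ω‖) + |a k|) * P := by
      have h3 : |(z1 k).re| ≤ (1 + ‖ω‖) * R := by
        rw [hz1k]
        refine (abs_add_le _ _).trans ?_
        rw [abs_of_pos hR0, abs_mul, abs_of_nonneg hlog]
        have h4 := Complex.abs_re_le_norm ω
        have h5 : Real.log R * |ω.re| ≤ R * ‖ω‖ := by gcongr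
        linarith
      have h6 : |(L k z1).re| ≤ |(L k z1).re - (b k * (z1 k).re + a k * Real.log R)| +
          |b k * (z1 k).re + a k * Real.log R| := by
        have := abs_add_le ((L k z1).re - (b k * (z1 k).re + a k * Real.log R))
          (b k * (z1 k).re + a k * Real.log R)
        rwa [sub_add_cancel] at this
      have h7 : |b k * (z1 k).re + a k * Real.log R| ≤ |b k| * ((1 + ‖ω‖) * P) + |a k| * P := by
        refine (abs_add_le _ _).trans ?_
        rw [abs_mul, abs_mul, abs_of_nonneg hlog]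
        have h8 : |(z1 k).re| ≤ (1 + ‖ω‖) * P := h3.trans (by gcongr)
        have h9 : Real.log R ≤ P := hlogR.trans hRP
        gcongr
      have h10 : |C| ≤ |C| * P := le_mul_of_one_le_right (abs_nonneg _) hP1
      have h11 := le_abs_self C
      linarith
    have h3 : |(eval z1 q).re| ≤ (C1 + C2) * P := by
      have h4 := hexp R hR1 (W * Real.log R / R) (by positivity)
        (by rw [div_le_one hR0]; linarith) z1 (sc R ζ)
        (by rw [hz1n, div_mul_cancel₀ _ hR0.ne']) (by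
          rw [sub_self, norm_zero]; positivity)
      have h5 : dlin (top q) ζ (z1 - sc R ζ) = 0 := by
        rw [hz1, add_sub_cancel_left, map_smul, hdws, smul_zero]
      rw [h5, mul_zero, sub_zero, hz1n, ← hP] at h4
      have h6 := htop R hR1 ζ le_rfl
      rw [mul_div_assoc, hRP'] at h6
      have h7 : C1 * (W * Real.log R / R + 1 / R) * P * (W * Real.log R) ≤ C1 * P := by
        calc _ = C1 * P * ((W * Real.log R + 1) * (W * Real.log R) / R) := by field_simp
          _ ≤ C1 * P * 1 := by gcongr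
          _ = _ := mul_one _
      have h8 : ((R : ℂ) ^ q.totalDegree * eval ζ (top q)).re = 0 := by
        rw [← Complex.ofReal_pow, Complex.re_ofReal_mul, hre, mul_zero]
      have h9 : (eval z1 q).re = (eval z1 q - eval (sc R ζ) q).re +
          (eval (sc R ζ) q - (R : ℂ) ^ q.totalDegree * eval ζ (top q)).re := by
        rw [Complex.sub_re, Complex.sub_re, h8]
        ring
      rw [h9]
      refine (abs_add_le _ _).trans ?_
      have h10 := (Complex.abs_re_le_norm _).trans h4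
      have h11 := (Complex.abs_re_le_norm _).trans h6
      linarith
    have h4 : (Y k).re = (eval z1 q).re - (L k z1).re := by
      simp [hY]
    rw [h4]
    refine (abs_sub _ _).trans ?_
    calc _ ≤ (C1 + C2) * P + (|C| + |b k| * (1 + ‖ω‖) + |a k|) * P := add_le_add h3 h2
      _ = _ := by rw [hC3]; ring
  have hdiff : ∀ j, ∀ c : ℝ, |(Y j).re| ≤ c →
      ‖2 * Real.pi * Complex.I * (n j : ℂ) - Y j‖ ≤ c + Real.pi := by
    intro j c hc
    have hr' : (2 * Real.pi * Complex.I * (n j : ℂ) - Y j).re = -(Y j).re := by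
      simp only [Complex.sub_re]
      simp
    have hi : (2 * Real.pi * Complex.I * (n j : ℂ) - Y j).im = 2 * Real.pi * n j - (Y j).im := by
      simp only [Complex.sub_im]
      simp
    have hi' : |2 * Real.pi * n j - (Y j).im| ≤ Real.pi := by
      have h5 := hn j
      have hpi := Real.pi_pos
      have h6 : 2 * Real.pi * n j - (Y j).im =
          - (2 * Real.pi) * ((Y j).im / (2 * Real.pi) - n j) := by
        field_simp
        ring
      rw [h6, abs_mul, abs_neg, abs_of_pos (by positivity : 0 < 2 * Real.pi)]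
      nlinarith
    refine (Complex.norm_le_abs_re_add_abs_im _).trans ?_
    rw [hr', hi, abs_neg]
    exact add_le_add hc hi'
  have hτmem : τ ∈ closedBall (G z1) ((((rinv.nnnorm : ℝ))⁻¹ - ((3 * Kn : NNReal) : ℝ)) * ρ) := by
    rw [mem_closedBall, dist_eq_norm]
    refine le_trans ?_ hrad'
    rw [hρK, pi_norm_le_iff_of_nonneg (by have := Real.pi_pos; positivity)]
    intro j
    by_cases hj : j = k
    · have e : (τ - G z1) j = (P : ℂ)⁻¹ * (2 * Real.pi * Complex.I * (n k : ℂ) - Y k) := by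
        rw [hj]
        simp only [Pi.sub_apply, hGk, hτ, hY, if_true]
        ring
      rw [e, norm_mul, hPn]
      have h1 := hdiff k _ hYk
      have hpi := Real.pi_pos
      calc _ ≤ P⁻¹ * (C3 * P + Real.pi) := by gcongr
        _ = C3 + P⁻¹ * Real.pi := by field_simp
        _ ≤ C3 + 1 * Real.pi := by
          have : P⁻¹ ≤ 1 := inv_le_one_of_one_le₀ hP1
          gcongr
        _ = _ := by ring
    · have e : (τ - G z1) j = 2 * Real.pi * Complex.I * (n j : ℂ) - Y j := by
        simp only [Pi.sub_apply, hGj _ _ hj, hτ, hY, if_neg hj]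
      rw [e]
      exact hdiff j _ (hYj j hj)
  obtain ⟨z, hz, hGz⟩ := hsurj hτmem
  refine ⟨z, hsub' (hsub hz), fun j hj => ⟨n j, ?_⟩, n k, ?_⟩
  · have h7 := congrFun hGz j
    rw [hGj _ _ hj] at h7
    rw [h7]
    simp only [hτ, if_neg hj]
  · have h7 := congrFun hGz k
    rw [hGk] at h7
    simp only [hτ, if_true] at h7
    exact mul_left_cancel₀ (inv_ne_zero hPne) h7

end Pool.Agent.K3h67.UG3
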